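import Mathlib

/-!
A 15-element ordered set of width five in which every element has a chain cutset (copied from
the file `WidthFive`), and its ordinal sums with chains.
-/

namespace Pool.Agent.Y767.CC

universe u

/-- `S` is a cutset of `P`: it meets every maximal chain of `P`. -/
def IsCutset {P : Type*} [PartialOrder P] (S : Set P) : Prop :=
  ∀ C : Set P, IsMaxChain (· ≤ ·) C → (S ∩ C).Nonempty

/-- `K` is a chain cutset for the element `x`: `K` is a chain, all elements of `K` are
incomparable to `x`, and `K ∪ {x}` is a cutset of `P`. -/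
def IsChainCutsetFor {P : Type*} [PartialOrder P] (x : P) (K : Set P) : Prop :=
  IsChain (· ≤ ·) K ∧ (∀ y ∈ K, ¬ y ≤ x ∧ ¬ x ≤ y) ∧ IsCutset (insert x K)

/-- A reachability criterion for cutsets in finite ordered sets. -/
theorem cutset_of_labelling {P : Type*} [PartialOrder P] [Finite P] [Nonempty P] (S : Set P)
    (R : P → Prop)
    (ha : ∀ y, (∀ z, ¬ z < y) → y ∉ S → R y)
    (hb : ∀ y z, R y → y < z → (∀ w, y < w → ¬ w < z) → z ∉ S → R z)
    (hc : ∀ y, R y → ∃ z, y < z) : IsCutset S := by
  intro C hC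
  by_contra hne
  rw [Set.not_nonempty_iff_eq_empty] at hne
  have hS : ∀ y ∈ C, y ∉ S := by
    intro y hy hyS
    have : y ∈ S ∩ C := ⟨hyS, hy⟩
    rw [hne] at this
    exact this
  have key : ∀ w, (∀ z ∈ C, z ≤ w ∨ w ≤ z) → w ∈ C := by
    intro w hw
    have h1 : IsChain (· ≤ ·) (insert w C) := by
      apply hC.1.insert
      intro b hb _
      exact (hw b hb).symm
    have h2 := hC.2 h1 (Set.subset_insert _ _)
    rw [h2]
    exact Set.mem_insert _ _
  have tot : ∀ a ∈ C, ∀ b ∈ C, a ≤ b ∨ b ≤ a := by
    intro a ha b hb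
    exact hC.1.total ha hb
  have hR : ∀ y, y ∈ C → R y := by
    intro y
    induction y using (wellFounded_lt (α := P)).induction with
    | _ y ih =>
      intro hy
      by_cases hmin : ∀ z, ¬ z < y
      · exact ha y hmin (hS y hy)
      · push Not at hmin
        obtain ⟨z0, hz0⟩ := hmin
        have hex : ∃ z ∈ C, z < y := by
          by_contra hno
          push Not at hno
          have : z0 ∈ C := by
            apply key
            intro z hz
            right
            rcases tot z hz y hy with h | h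
            · rcases h.lt_or_eq with h' | h'
              · exact absurd h' (hno z hz)
              · rw [h']; exact hz0.le
            · exact hz0.le.trans h
          exact hno z0 this hz0
        have hfin : (C ∩ {z | z < y}).Finite := Set.toFinite _
        obtain ⟨z, hz⟩ := hfin.exists_maximal (by
          obtain ⟨z, hz, hzy⟩ := hex
          exact ⟨z, hz, hzy⟩)
        have hzC : z ∈ C := hz.prop.1
        have hzy : z < y := hz.prop.2
        have hcov : ∀ w, z < w → ¬ w < y := by
          intro w hzw hwy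
          have hw : w ∈ C := by
            apply key
            intro v hv
            rcases tot v hv y hy with h | h
            · rcases h.lt_or_eq with h' | h'
              · left
                rcases tot v hv z hzC with h2 | h2
                · exact h2.trans hzw.le
                · exact (hz.le_of_ge ⟨hv, h'⟩ h2).trans hzw.le
              · right; rw [h']; exact hwy.le
            · right; exact hwy.le.trans h
          exact absurd (hz.le_of_ge ⟨hw, hwy⟩ hzw.le) (not_le_of_gt hzw)
        exact hb z y (ih z hzy hzC) hzy hcov (hS y hy)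
  have hCne : C.Nonempty := by
    by_contra h
    rw [Set.not_nonempty_iff_eq_empty] at h
    obtain ⟨p⟩ := ‹Nonempty P›
    have : p ∈ C := by
      apply key
      intro z hz
      rw [h] at hz
      exact absurd hz (Set.notMem_empty _)
    rw [h] at this
    exact this
  obtain ⟨m, hm⟩ := (Set.toFinite C).exists_maximal hCne
  obtain ⟨z, hz⟩ := hc m (hR m hm.prop)
  have hzC : z ∈ C := by
    apply key
    intro v hv
    left
    rcases tot v hv m hm.prop with h | h
    · exact h.trans hz.le
    · exact (hm.le_of_ge hv h).trans hz.le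
  exact absurd (hm.le_of_ge hzC hz.le) (not_le_of_gt hz)

/-- The underlying set of the example: fifteen points `0, …, 14` (the usual order of `Fin 15`
is not used). -/
def Q : Type := Fin 15

instance : DecidableEq Q := inferInstanceAs (DecidableEq (Fin 15))
instance : Fintype Q := inferInstanceAs (Fintype (Fin 15))
instance : Nonempty Q := inferInstanceAs (Nonempty (Fin 15))

/-- Binary code of the up-set of each point. -/
def up : Fin 15 → ℕ :=
  ![32373, 32734, 31316, 32136, 27216, 29728, 10304, 10368, 29952, 16896, 29696, 10240, 28672,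
    8192, 16384]

/-- Binary code of a chain cutset for each point. -/
def cut : Fin 15 → ℕ :=
  ![2, 1, 1032, 5, 4104, 6, 20488, 4100, 2053, 12288, 2052, 20480, 2064, 16384, 8192]

/-- Binary code of the set of points reachable from below while avoiding the cutset. -/
def reach : Fin 15 → ℕ :=
  ![0, 0, 35, 2, 1063, 1, 1591, 1323, 138, 3583, 427, 2047, 1455, 8191, 8191]

/-- `a` is below or equal to `b`. -/
def leQ (a b : Q) : Prop := (up a).testBit (Fin.val b) = true

instance (a b : Q) : Decidable (leQ a b) := inferInstanceAs (Decidable (_ = true))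

theorem leQ_refl : ∀ a : Q, leQ a a := by decide +kernel
theorem leQ_trans : ∀ a b c : Q, leQ a b → leQ b c → leQ a c := by decide +kernel
theorem leQ_antisymm : ∀ a b : Q, leQ a b → leQ b a → a = b := by decide +kernel

instance : PartialOrder Q where
  le := leQ
  le_refl := leQ_refl
  le_trans := leQ_trans
  le_antisymm := leQ_antisymm

instance : DecidableLE Q := fun a b => inferInstanceAs (Decidable (leQ a b))
instance : DecidableLT Q := fun a b => decidable_of_iff (leQ a b ∧ ¬ leQ b a) Iff.rfl

/-- The chain cutset of the point `x`. -/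
def K (x : Q) : Set Q := {y | (cut x).testBit (Fin.val y) = true}

instance (x y : Q) : Decidable (y ∈ K x) := inferInstanceAs (Decidable (_ = true))

theorem K_chain : ∀ x a b : Q, a ∈ K x → b ∈ K x → a ≤ b ∨ b ≤ a := by decide +kernel

theorem K_incomp : ∀ x y : Q, y ∈ K x → ¬ y ≤ x ∧ ¬ x ≤ y := by decide +kernel

theorem reach_min : ∀ x y : Q, (∀ z, ¬ z < y) → ¬ (y = x ∨ y ∈ K x) →
    (reach x).testBit (Fin.val y) = true := by decide +kernel

theorem reach_step : ∀ x y z : Q, (reach x).testBit (Fin.val y) = true → y < z →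
    (∀ w, y < w → ¬ w < z) → ¬ (z = x ∨ z ∈ K x) →
    (reach x).testBit (Fin.val z) = true := by decide +kernel

theorem reach_not_max : ∀ x y : Q, (reach x).testBit (Fin.val y) = true → ∃ z, y < z := by
  decide +kernel

theorem K_cutset (x : Q) : IsChainCutsetFor x (K x) := by
  refine ⟨?_, K_incomp x, ?_⟩
  · intro a ha b hb _
    exact K_chain x a b ha hb
  · refine cutset_of_labelling _ (fun y => (reach x).testBit (Fin.val y) = true)
      (fun y h1 h2 => reach_min x y h1 h2)
      (fun y z h1 h2 h3 h4 => reach_step x y z h1 h2 h3 h4)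
      (fun y h => reach_not_max x y h)

/-- The five-element antichain `{5, 6, 7, 8, 9}`. -/
def A : Finset Q := {(5 : Fin 15), (6 : Fin 15), (7 : Fin 15), (8 : Fin 15), (9 : Fin 15)}

theorem A_anti : ∀ a ∈ A, ∀ b ∈ A, a ≠ b → ¬ a ≤ b := by decide +kernel

/-- A partition of the example into five chains. -/
def chainNo : Fin 15 → Fin 5 :=
  ![0, 1, 0, 1, 0, 2, 0, 1, 3, 4, 3, 1, 2, 0, 4]

theorem chainNo_chain' : ∀ a b : Fin 15, chainNo a = chainNo b → leQ a b ∨ leQ b a := by
  unfold leQ
  decide +kernel

theorem chainNo_chain (a b : Q) (h : chainNo a = chainNo b) : a ≤ b ∨ b ≤ a :=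
  chainNo_chain' a b h

theorem antichain_le {S : Set Q} (hS : IsAntichain (· ≤ ·) S) : S.encard ≤ 5 := by
  have h1 : Set.InjOn (fun a : Q => chainNo a) S := by
    intro a ha b hb hab
    by_contra hne
    rcases chainNo_chain a b hab with h | h
    · exact hS ha hb hne h
    · exact hS hb ha (Ne.symm hne) h
  rw [← h1.encard_image]
  refine (Set.encard_le_encard (Set.subset_univ _)).trans ?_
  rw [Set.encard_univ]
  simp

theorem card_Q : Fintype.card Q = 15 := Fintype.card_fin 15

/-! ### Ordinal sums -/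

section sum

variable {P ι : Type*} [PartialOrder P] [LinearOrder ι]

theorem isMaxChain_inl {C : Set (Lex (P ⊕ ι))} (hC : IsMaxChain (· ≤ ·) C) :
    IsMaxChain (· ≤ ·) {p : P | toLex (Sum.inl p) ∈ C} := by
  constructor
  · intro a ha b hb hab
    have h := hC.1.total ha hb
    rwa [Sum.Lex.inl_le_inl_iff, Sum.Lex.inl_le_inl_iff] at h
  · intro D hD hsub
    refine le_antisymm hsub fun p hp => ?_
    have hch : IsChain (· ≤ ·) (C ∪ (fun p : P => toLex (Sum.inl p : P ⊕ ι)) '' D) := by
      rintro x hx y hy hxy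
      rcases hx with hx | ⟨a, ha, rfl⟩ <;> rcases hy with hy | ⟨b, hb, rfl⟩
      · exact hC.1.total hx hy
      · induction x using Lex.rec with
        | _ x =>
          rcases x with x | x
          · have := hD.total (hsub hx) hb
            show toLex (Sum.inl x : P ⊕ ι) ≤ toLex (Sum.inl b) ∨
              toLex (Sum.inl b : P ⊕ ι) ≤ toLex (Sum.inl x)
            rwa [Sum.Lex.inl_le_inl_iff, Sum.Lex.inl_le_inl_iff]
          · exact Or.inr (Sum.Lex.inl_le_inr _ _)
      · induction y using Lex.rec with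
        | _ y =>
          rcases y with y | y
          · have := hD.total ha (hsub hy)
            show toLex (Sum.inl a : P ⊕ ι) ≤ toLex (Sum.inl y) ∨
              toLex (Sum.inl y : P ⊕ ι) ≤ toLex (Sum.inl a)
            rwa [Sum.Lex.inl_le_inl_iff, Sum.Lex.inl_le_inl_iff]
          · exact Or.inl (Sum.Lex.inl_le_inr _ _)
      · have := hD.total ha hb
        show toLex (Sum.inl a : P ⊕ ι) ≤ toLex (Sum.inl b) ∨
          toLex (Sum.inl b : P ⊕ ι) ≤ toLex (Sum.inl a)
        rwa [Sum.Lex.inl_le_inl_iff, Sum.Lex.inl_le_inl_iff]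
    have heq := hC.2 hch Set.subset_union_left
    show toLex (Sum.inl p : P ⊕ ι) ∈ C
    rw [heq]
    exact Or.inr ⟨p, hp, rfl⟩

theorem cutset_inl {x : P} {K : Set P} (hK : IsChainCutsetFor x K) :
    IsChainCutsetFor (toLex (Sum.inl x : P ⊕ ι))
      ((fun p : P => toLex (Sum.inl p : P ⊕ ι)) '' K) := by
  refine ⟨?_, ?_, ?_⟩
  · rintro _ ⟨a, ha, rfl⟩ _ ⟨b, hb, rfl⟩ _
    have := hK.1.total ha hb
    show toLex (Sum.inl a : P ⊕ ι) ≤ toLex (Sum.inl b) ∨
      toLex (Sum.inl b : P ⊕ ι) ≤ toLex (Sum.inl a)
    rwa [Sum.Lex.inl_le_inl_iff, Sum.Lex.inl_le_inl_iff]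
  · rintro _ ⟨a, ha, rfl⟩
    have := hK.2.1 a ha
    show ¬ toLex (Sum.inl a : P ⊕ ι) ≤ toLex (Sum.inl x) ∧
      ¬ toLex (Sum.inl x : P ⊕ ι) ≤ toLex (Sum.inl a)
    rwa [Sum.Lex.inl_le_inl_iff, Sum.Lex.inl_le_inl_iff]
  · intro C hC
    obtain ⟨p, hp, hpC⟩ := hK.2.2 _ (isMaxChain_inl hC)
    refine ⟨toLex (Sum.inl p), ?_, hpC⟩
    rcases hp with rfl | hp
    · exact Or.inl rfl
    · exact Or.inr ⟨p, hp, rfl⟩

theorem cutset_inr (i : ι) : IsChainCutsetFor (toLex (Sum.inr i : P ⊕ ι)) ∅ := by
  refine ⟨Set.pairwise_empty _, fun y hy => absurd hy (Set.notMem_empty _), fun C hC => ?_⟩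
  refine ⟨toLex (Sum.inr i), Or.inl rfl, ?_⟩
  have hch : IsChain (· ≤ ·) (insert (toLex (Sum.inr i : P ⊕ ι)) C) := by
    apply hC.1.insert
    intro y hy _
    induction y using Lex.rec with
    | _ y =>
      rcases y with y | y
      · exact Or.inr (Sum.Lex.inl_le_inr _ _)
      · rcases le_total i y with h | h
        · exact Or.inl (Sum.Lex.inr_le_inr_iff.2 h)
        · exact Or.inr (Sum.Lex.inr_le_inr_iff.2 h)
  rw [hC.2 hch (Set.subset_insert _ _)]
  exact Set.mem_insert _ _

theorem antichain_sum {n : ℕ∞} (hn : 1 ≤ n)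
    (h : ∀ S : Set P, IsAntichain (· ≤ ·) S → S.encard ≤ n)
    (S : Set (Lex (P ⊕ ι))) (hS : IsAntichain (· ≤ ·) S) : S.encard ≤ n := by
  by_cases hr : ∃ i : ι, toLex (Sum.inr i : P ⊕ ι) ∈ S
  · obtain ⟨i, hi⟩ := hr
    have hsub : S ⊆ {toLex (Sum.inr i : P ⊕ ι)} := by
      intro y hy
      by_contra hne
      have hne' : y ≠ toLex (Sum.inr i : P ⊕ ι) := hne
      induction y using Lex.rec with
      | _ y =>
        rcases y with y | y
        · exact hS hy hi hne' (Sum.Lex.inl_le_inr _ _)
        · rcases le_total i y with h1 | h1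
          · exact hS hi hy hne'.symm (Sum.Lex.inr_le_inr_iff.2 h1)
          · exact hS hy hi hne' (Sum.Lex.inr_le_inr_iff.2 h1)
    refine (Set.encard_le_encard hsub).trans ?_
    rw [Set.encard_singleton]
    exact hn
  · have himg : S = (fun p : P => toLex (Sum.inl p : P ⊕ ι)) '' {p | toLex (Sum.inl p) ∈ S} := by
      ext y
      constructor
      · intro hy
        induction y using Lex.rec with
        | _ y =>
          rcases y with y | y
          · exact ⟨y, hy, rfl⟩
          · exact absurd ⟨y, hy⟩ hr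
      · rintro ⟨p, hp, rfl⟩
        exact hp
    have hinj : Function.Injective (fun p : P => toLex (Sum.inl p : P ⊕ ι)) := by
      intro a b hab
      exact Sum.inl_injective (toLex.injective hab)
    rw [himg, hinj.encard_image]
    refine h _ fun a ha b hb hab hle => hS ha hb (fun he => hab (hinj he)) ?_
    exact Sum.Lex.inl_le_inl_iff.2 hle

end sum

/-! ### Transfer -/

/-- The copy of the example in another universe. -/
def eQ : Q ≃o ULift.{u} Q where
  toFun := ULift.up
  invFun := ULift.down
  left_inv _ := rfl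
  right_inv _ := rfl
  map_rel_iff' := Iff.rfl

theorem cutset_equiv {P P' : Type*} [PartialOrder P] [PartialOrder P'] (e : P ≃o P') {x : P}
    {K : Set P} (h : IsChainCutsetFor x K) : IsChainCutsetFor (e x) (e '' K) := by
  refine ⟨?_, ?_, ?_⟩
  · rintro _ ⟨a, ha, rfl⟩ _ ⟨b, hb, rfl⟩ _
    have := h.1.total ha hb
    show e a ≤ e b ∨ e b ≤ e a
    rwa [e.le_iff_le, e.le_iff_le]
  · rintro _ ⟨a, ha, rfl⟩
    have := h.2.1 a ha
    rwa [e.le_iff_le, e.le_iff_le]
  · intro C hC
    have hC' : IsMaxChain (· ≤ ·) (e.symm '' C) := IsMaxChain.image e.symm hC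
    obtain ⟨p, hp, ⟨q, hq, hqp⟩⟩ := h.2.2 _ hC'
    have hpq : e p = q := by rw [← hqp, e.apply_symm_apply]
    refine ⟨e p, ?_, hpq ▸ hq⟩
    rcases hp with rfl | hp
    · exact Or.inl rfl
    · exact Or.inr ⟨p, hp, rfl⟩

theorem exists_cutset_lift (x : ULift.{u} Q) : ∃ K : Set (ULift.{u} Q), IsChainCutsetFor x K :=
  ⟨_, cutset_equiv eQ (K_cutset x.down)⟩

theorem antichain_lift (S : Set (ULift.{u} Q)) (hS : IsAntichain (· ≤ ·) S) : S.encard ≤ 5 := by
  have h1 : IsAntichain (· ≤ ·) (eQ.{u}.symm '' S) := by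
    rintro _ ⟨a, ha, rfl⟩ _ ⟨b, hb, rfl⟩ hab hle
    exact hS ha hb (fun h => hab (by rw [h])) (eQ.{u}.symm.le_iff_le.1 hle)
  have h2 := antichain_le h1
  rwa [eQ.{u}.symm.injective.encard_image] at h2

end Pool.Agent.Y767.CC
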